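import Pool.Agent.Q169.WL.Walls2
import Pool.Agent.Q169.CT.Am

/-!
Amenable subgroups `C` of `G` such that the pair `(G, C)` has at least two ends.
-/

set_option autoImplicit false
set_option linter.unusedSectionVars false

open scoped Pointwise symmDiff

namespace Pool.Agent.Q169.WL

open Pool.Agent.H496R3.ZS (IsAmenable)
open Pool.Agent.H919R4.ZS (toRed FinRes)

variable {G : Type} [Group G]

lemma am_stab (C : Subgroup G) (hC : IsAmenable C) (x : G ⧸ C) :
    IsAmenable (MulAction.stabilizer G x) := by
  obtain ⟨g, hg⟩ := MulAction.exists_smul_eq G ((1 : G) : G ⧸ C) x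
  have e := MulAction.stabilizerEquivStabilizer hg.symm
  rw [MulAction.stabilizer_quotient] at e
  exact Pool.Agent.Q169.CT.amen_equiv e hC

theorem ends (X : FinRes G) (C : Subgroup G) (hC : IsAmenable C) (A : Set (G ⧸ C))
    (hA : ∀ g : G, (symmDiff (g • A) A).Finite) (h1 : A.Infinite) (h2 : Aᶜ.Infinite) :
    ∃ i ≤ 1, Nontrivial (X.homology (toRed G) i) := by
  refine walls2 X (am_stab C hC) A hA ?_
  intro B hB
  rcases Set.eq_empty_or_nonempty B with rfl | ⟨b, hb⟩
  · have : symmDiff A (∅ : Set (G ⧸ C)) = A := symmDiff_bot A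
    rwa [this]
  · have hu : B = Set.univ := by
      refine Set.eq_univ_of_forall fun x => ?_
      obtain ⟨g, hg⟩ := MulAction.exists_smul_eq G b x
      rw [← hg, ← hB g]
      exact Set.smul_mem_smul_set hb
    subst hu
    have : symmDiff A (Set.univ : Set (G ⧸ C)) = Aᶜ := symmDiff_top A
    rwa [this]

end Pool.Agent.Q169.WL
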