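import Pool.Agent.H919R4.AS.Final

/-!
Extension of the permutation representation of a `G`-set with amenable stabilizers to `C*_r(G)`, and
derivations with values in it.
-/

set_option autoImplicit false
set_option linter.unusedSectionVars false

open scoped Matrix ENNReal Pointwise symmDiff
open Filter Topology

namespace Pool.Agent.Q169.WL

open Pool.Agent.H496R3.ZS (Ell permRep IsAmenable integ)
open Pool.Agent.H919R4.ZS (RedC redCstar groupRing toRed toOp toOp_mem lreg lregHom Hil Op FinRes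
  valR eps eps_add eps_neg eps_sub eps_smul eps_zsmul eps_single eps_d
  exists_lift Th Th_apply Th_smul augm_Th augm augm_single d_mul_d exists_rows
  exact_of_subsingleton)
open Pool.Agent.H919R4.AS (LL LL_single act act_mul act_add act_one act_zero triv valR_mem mm
  mm_single mm_mul pV pV_vecMul pV_smul Mult)

noncomputable section

variable {G : Type} [Group G] {E : Type} [MulAction G E]

/-- the closure of the graph -/
def Gm (G E : Type) [Group G] [MulAction G E] :
    Subalgebra ℂ ((Ell G →L[ℂ] Ell G) × (Ell E →L[ℂ] Ell E)) :=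
  ((integ G G).prod (integ G E)).range.topologicalClosure

lemma Gm_norm (hE : ∀ e : E, IsAmenable (MulAction.stabilizer G e))
    {p : (Ell G →L[ℂ] Ell G) × (Ell E →L[ℂ] Ell E)} (hp : p ∈ Gm G E) : ‖p.2‖ ≤ ‖p.1‖ := by
  have hcl : IsClosed {p : (Ell G →L[ℂ] Ell G) × (Ell E →L[ℂ] Ell E) | ‖p.2‖ ≤ ‖p.1‖} :=
    isClosed_le (by fun_prop) (by fun_prop)
  have h1 : (Gm G E : Set ((Ell G →L[ℂ] Ell G) × (Ell E →L[ℂ] Ell E))) ⊆ {p | ‖p.2‖ ≤ ‖p.1‖} := by
    rw [Gm, Subalgebra.topologicalClosure_coe]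
    refine closure_minimal ?_ hcl
    rintro _ ⟨x, rfl⟩
    exact Pool.Agent.H496R3.ZS.norm_integ_le hE x
  exact h1 hp

lemma Gm_unique (hE : ∀ e : E, IsAmenable (MulAction.stabilizer G e))
    {a : Ell G →L[ℂ] Ell G} {b b' : Ell E →L[ℂ] Ell E} (h : (a, b) ∈ Gm G E)
    (h' : (a, b') ∈ Gm G E) : b = b' := by
  have h1 := Gm_norm hE ((Gm G E).sub_mem h h')
  simp only [Prod.mk_sub_mk, sub_self, norm_zero] at h1
  exact sub_eq_zero.1 (norm_le_zero_iff.1 h1)

lemma Gm_exists (hE : ∀ e : E, IsAmenable (MulAction.stabilizer G e)) (a : Ell G →L[ℂ] Ell G)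
    (ha : a ∈ closure (Set.range (integ G G))) : ∃ b, (a, b) ∈ Gm G E := by
  obtain ⟨s, hs, hlim⟩ := mem_closure_iff_seq_limit.1 ha
  choose x hx using hs
  have hcauchy : CauchySeq (fun n => integ G E (x n)) := by
    have h1 : CauchySeq s := hlim.cauchySeq
    rw [Metric.cauchySeq_iff] at h1 ⊢
    intro ε hε
    obtain ⟨N, hN⟩ := h1 ε hε
    refine ⟨N, fun i hi j hj => ?_⟩
    have h2 := hN i hi j hj
    rw [dist_eq_norm] at h2 ⊢
    refine lt_of_le_of_lt ?_ h2
    rw [← map_sub, ← hx, ← hx, ← map_sub]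
    exact Pool.Agent.H496R3.ZS.norm_integ_le hE _
  obtain ⟨b, hb⟩ := cauchySeq_tendsto_of_complete hcauchy
  refine ⟨b, ?_⟩
  rw [← SetLike.mem_coe, Gm, Subalgebra.topologicalClosure_coe]
  refine mem_closure_of_tendsto (hlim.prodMk_nhds hb) (Eventually.of_forall fun n => ?_)
  refine ⟨x n, ?_⟩
  rw [← hx n]
  rfl

lemma Gm_group (g : G) : (permRep G G g, permRep G E g) ∈ Gm G E := by
  refine Subalgebra.le_topologicalClosure _ ⟨MonoidAlgebra.single g 1, ?_⟩
  refine Prod.ext ?_ ?_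
  · exact Pool.Agent.H496R3.ZS.integ_single g
  · change integ G E (MonoidAlgebra.single g 1) = _
    rw [integ, MonoidAlgebra.lift_single, one_smul]

lemma triv_rep (g : G) : (triv G E).rep g = permRep G E g := by
  refine ContinuousLinearMap.ext fun f => ?_
  ext z
  change (1 : ℂ) * f (g⁻¹ • z) = f (g⁻¹ • z)
  rw [one_mul]

/-- the extension of the permutation representation to `C*_r(G)` -/
theorem exists_ext' (hE : ∀ e : E, IsAmenable (MulAction.stabilizer G e)) :
    ∃ t : RedC G →+* (Ell E →L[ℂ] Ell E), ∀ a, t (toRed G a) = LL (triv G E) a := by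
  choose t ht using fun x : RedC G => Gm_exists hE _ (valR_mem x)
  have hadd : ∀ a b, t (a + b) = t a + t b := by
    intro a b
    refine Gm_unique hE (ht (a + b)) ?_
    rw [map_add]
    exact (Gm G E).add_mem (ht a) (ht b)
  have hmul : ∀ a b, t (a * b) = t a * t b := by
    intro a b
    refine Gm_unique hE (ht (a * b)) ?_
    rw [map_mul]
    exact (Gm G E).mul_mem (ht a) (ht b)
  have hone : t 1 = 1 := by
    refine Gm_unique hE (ht 1) ?_
    rw [map_one]
    exact (Gm G E).one_mem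
  have hzero : t 0 = 0 := by
    refine Gm_unique hE (ht 0) ?_
    rw [map_zero]
    exact (Gm G E).zero_mem
  refine ⟨⟨⟨⟨t, hone⟩, hmul⟩, hzero, hadd⟩, ?_⟩
  intro a
  change t (toRed G a) = LL (triv G E) a
  refine MonoidAlgebra.induction_linear a ?_ ?_ ?_
  · rw [map_zero, map_zero, hzero]
  · intro x y hx hy
    rw [map_add, map_add, hadd, hx, hy]
  · intro g r
    refine Gm_unique hE (ht _) ?_
    rw [LL_single, Pool.Agent.H919R4.ZS.coe_toRed, Pool.Agent.H919R4.ZS.L_single, triv_rep]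
    exact zsmul_mem (Gm_group g) r

theorem contraction1 {S : Type*} [Ring S] (X : FinRes G) (φ : MonoidAlgebra ℤ G →+* S)
    (h0 : Subsingleton (X.homology φ 0)) (h1 : Subsingleton (X.homology φ 1)) :
    ∃ (s0 : Matrix (Fin (X.n 0)) (Fin (X.n 1)) S) (s1 : Matrix (Fin (X.n 1)) (Fin (X.n 2)) S),
      (X.d 0).map φ * s0 + s1 * (X.d 1).map φ = 1 := by
  obtain ⟨s0, hs0⟩ := exists_rows ((X.d 0).map φ) (1 : Matrix (Fin (X.n 0)) (Fin (X.n 0)) S)
    (fun i => exact_of_subsingleton X φ 0 h0 _ trivial)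
  have e1 : (1 - (X.d 0).map φ * s0) * (X.d 0).map φ = 0 := by
    rw [Matrix.sub_mul, Matrix.one_mul, Matrix.mul_assoc, hs0, Matrix.mul_one, sub_self]
  obtain ⟨s1, hs1⟩ := exists_rows ((X.d 1).map φ) (1 - (X.d 0).map φ * s0)
    (fun i => exact_of_subsingleton X φ 1 h1 _ (by
      change ((1 - (X.d 0).map φ * s0 : Matrix (Fin (X.n 1)) (Fin (X.n 1)) S) i) ᵥ* (X.d 0).map φ = 0
      rw [← Matrix.mul_apply_eq_vecMul, e1]; rfl))
  exact ⟨s0, s1, by rw [hs1]; abel⟩

/-- exactness in degree one -/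
theorem exact1 (X : FinRes G) (hE : ∀ e : E, IsAmenable (MulAction.stabilizer G e))
    (h0 : Subsingleton (X.homology (toRed G) 0)) (h1 : Subsingleton (X.homology (toRed G) 1))
    (v : Fin (X.n 1) → Ell E) (hv : act ((X.d 1).map (LL (triv G E))) v = 0) :
    ∃ w, act ((X.d 0).map (LL (triv G E))) w = v := by
  obtain ⟨s0, s1, e1⟩ := contraction1 X (toRed G) h0 h1
  obtain ⟨t, ht⟩ := exists_ext' hE
  have key : ∀ i, ((X.d i).map (toRed G)).map t = (X.d i).map (LL (triv G E)) := by
    intro i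
    refine funext fun j => funext fun k => ?_
    exact ht (X.d i j k)
  have f1 : (X.d 0).map (LL (triv G E)) * s0.map t + s1.map t * (X.d 1).map (LL (triv G E)) = 1 := by
    have := Pool.Agent.H919R4.ZS.map_ident t _ _ _ _ e1
    rwa [key 0, key 1] at this
  refine ⟨act (s0.map t) v, ?_⟩
  have h2 := congrArg (fun M => act M v) f1
  rw [act_add, act_mul, act_mul, hv, act_zero, add_zero, act_one] at h2
  exact h2

/-- every derivation is inner, if the complex is exact in degree one -/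
theorem deriv_inner' {Z : Type} [MulAction G Z] (X : FinRes G) (m : Mult G Z)
    (hV : ∀ v : Fin (X.n 1) → Ell Z, act ((X.d 1).map (LL m)) v = 0 →
      ∃ w, act ((X.d 0).map (LL m)) w = v) (w : G → Ell Z)
    (hw : ∀ g k, w (g * k) = LL m (MonoidAlgebra.single g 1) (w k) + w g) :
    ∃ v, ∀ k, w k = LL m (MonoidAlgebra.single k 1) v - v := by
  obtain ⟨x0, hx0⟩ := X.surj
  change eps X x0 = 1 at hx0
  set b : Fin (X.n 1) → Ell Z := fun i => mm w (Th X (X.d 0 i)) with hb
  have hrow : ∀ i, eps X (X.d 0 i) = 0 := by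
    intro i
    have : (Pi.single i 1 : Fin (X.n 1) → MonoidAlgebra ℤ G) ᵥ* X.d 0 = X.d 0 i := by
      funext j; simp [Matrix.vecMul, dotProduct, Pi.single_apply]
    rw [← this, eps_d]
  have hp : ∀ x : Fin (X.n 1) → MonoidAlgebra ℤ G, pV m x b = mm w (Th X (x ᵥ* X.d 0)) := by
    intro x
    have e1 : ∀ i, LL m (x i) (b i) = mm w (Th X (x i • X.d 0 i)) := by
      intro i
      rw [Th_smul, mm_mul m w hw, augm_Th, hrow, zero_smul, add_zero]
    rw [pV, Finset.sum_congr rfl (fun i _ => e1 i), ← map_sum, ← map_sum, Matrix.vecMul_eq_sum]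
  have hc : act ((X.d 1).map (LL m)) b = 0 := by
    funext l
    have : act ((X.d 1).map (LL m)) b l = pV m (X.d 1 l) b := rfl
    rw [this, hp, ← Matrix.mul_apply_eq_vecMul, d_mul_d]
    change mm w (Th X 0) = 0
    simp
  obtain ⟨v', hv'⟩ := hV b hc
  have hy : ∀ y, eps X y = 0 → pV m y v' = mm w (Th X y) := by
    intro y hy
    obtain ⟨x, rfl⟩ := exists_lift X y hy
    rw [pV_vecMul, hv', hp]
  have hw1 : w 1 = 0 := by
    have := hw 1 1
    have e : LL m (MonoidAlgebra.single (1 : G) 1) (w 1) = w 1 := by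
      rw [← MonoidAlgebra.one_def, map_one]; rfl
    rw [mul_one, e] at this
    exact left_eq_add.1 this
  refine ⟨pV m x0 v' - mm w (Th X x0), ?_⟩
  intro k
  have e0 : eps X ((MonoidAlgebra.single k 1 - 1 : MonoidAlgebra ℤ G) • x0) = 0 := by
    rw [eps_smul, map_sub, augm_single, map_one, sub_self, zero_mul]
  have e1 := hy _ e0
  rw [pV_smul, Th_smul, mm_mul m w hw, augm_Th, hx0, one_smul, map_sub (mm w),
    MonoidAlgebra.one_def, mm_single, mm_single, hw1, smul_zero, sub_zero, one_smul] at e1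
  have e2 : ∀ v : Ell Z, LL m (MonoidAlgebra.single k 1 - MonoidAlgebra.single 1 1) v =
      LL m (MonoidAlgebra.single k 1) v - v := by
    intro v
    rw [map_sub, ← MonoidAlgebra.one_def, map_one]; rfl
  rw [e2, e2] at e1
  rw [map_sub]
  rw [← sub_eq_iff_eq_add'] at e1
  rw [← e1]
  abel

end

end Pool.Agent.Q169.WL
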