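import Pool.Agent.Q169.WL.Walls

/-!
Groups acting on trees with amenable edge stabilizers.
-/

set_option autoImplicit false
set_option linter.unusedSectionVars false

open scoped Pointwise symmDiff

namespace Pool.Agent.Q169.WL

open Pool.Agent.H496R3.ZS (IsAmenable)
open Pool.Agent.H919R4.ZS (toRed FinRes)

variable {V : Type} {T : SimpleGraph V}

lemma parent_unique (hT : T.IsTree) {v x y y' : V} (h : T.Adj x y) (h' : T.Adj x y')
    (hd : T.dist v y < T.dist v x) (hd' : T.dist v y' < T.dist v x) : y = y' := by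
  have key : ∀ z : V, T.Adj x z → T.dist v z < T.dist v x → ∃ (hz : T.Adj x z) (p : T.Walk z v),
      (SimpleGraph.Walk.cons hz p).IsPath := by
    intro z hz hdz
    obtain ⟨p, hp, hpl⟩ := hT.connected.exists_path_of_dist z v
    refine ⟨hz, p, SimpleGraph.Walk.isPath_of_length_eq_dist _ ?_⟩
    rw [SimpleGraph.Walk.length_cons, hpl]
    have h1 : T.dist x v ≤ T.dist x z + T.dist z v := hT.connected.dist_triangle
    rw [SimpleGraph.dist_eq_one_iff_adj.2 hz] at h1
    rw [SimpleGraph.dist_comm (u := v) (v := z), SimpleGraph.dist_comm (u := v) (v := x)] at hdz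
    omega
  obtain ⟨h1, p1, hp1⟩ := key y h hd
  obtain ⟨h2, p2, hp2⟩ := key y' h' hd'
  have h3 := (hT.existsUnique_path x v).unique hp1 hp2
  injection h3

lemma exists_parent (hT : T.IsTree) {v x : V} (hx : x ≠ v) :
    ∃ z, T.Adj x z ∧ T.dist v z < T.dist v x := by
  obtain ⟨p, hp, hpl⟩ := hT.connected.exists_path_of_dist x v
  cases p with
  | nil => exact absurd rfl hx
  | cons h q =>
    refine ⟨_, h, ?_⟩
    have h1 := SimpleGraph.dist_le q
    rw [SimpleGraph.Walk.length_cons] at hpl
    rw [SimpleGraph.dist_comm (u := v), SimpleGraph.dist_comm (u := v)]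
    omega

lemma sep (hT : T.IsTree) {v w x y : V} (hvw : T.Adj v w) (hxy : T.Adj x y)
    (h1 : T.dist v y < T.dist v x) (h2 : ¬ T.dist w y < T.dist w x) : x = w ∧ y = v := by
  have hne := hT.dist_ne_of_adj w hxy
  have a1 : T.dist w y ≤ T.dist w v + T.dist v y := hT.connected.dist_triangle
  have a2 : T.dist v x ≤ T.dist v w + T.dist w x := hT.connected.dist_triangle
  rw [SimpleGraph.dist_eq_one_iff_adj.2 hvw] at a2
  rw [SimpleGraph.dist_eq_one_iff_adj.2 hvw.symm] at a1
  by_cases hx : x = w
  · subst hx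
    refine ⟨rfl, ?_⟩
    rw [SimpleGraph.dist_self] at a2
    have h3 : T.dist v y = 0 := by omega
    exact ((hT.connected.dist_eq_zero_iff).1 h3).symm
  · exfalso
    obtain ⟨z, hz, hdz⟩ := exists_parent hT (v := w) hx
    have a3 : T.dist v z ≤ T.dist v w + T.dist w z := hT.connected.dist_triangle
    rw [SimpleGraph.dist_eq_one_iff_adj.2 hvw] at a3
    have h4 : z = y := parent_unique hT (v := v) hz hxy (by omega) h1
    subst h4
    exact h2 hdz

variable {G : Type} [Group G] [MulAction G V]

/-- oriented edges -/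
def darts (T : SimpleGraph V) (hadj : ∀ (g : G) a b, T.Adj a b → T.Adj (g • a) (g • b)) :
    SubMulAction G (V × V) where
  carrier := {p | T.Adj p.1 p.2}
  smul_mem' g _ hp := hadj g _ _ hp

variable (hadj : ∀ (g : G) a b, T.Adj a b → T.Adj (g • a) (g • b))

lemma dist_smul_le (hT : T.IsTree)
    (hadj : ∀ (g : G) a b, T.Adj a b → T.Adj (g • a) (g • b)) (g : G) (a b : V) :
    T.dist (g • a) (g • b) ≤ T.dist a b := by
  obtain ⟨p, hp⟩ := hT.connected.exists_walk_length_eq_dist a b
  let f : T →g T := ⟨fun a => g • a, fun {a b} h => hadj g a b h⟩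
  have h1 := SimpleGraph.dist_le (p.map f)
  rw [SimpleGraph.Walk.length_map, hp] at h1
  exact h1

lemma dist_smul (hT : T.IsTree)
    (hadj : ∀ (g : G) a b, T.Adj a b → T.Adj (g • a) (g • b)) (g : G) (a b : V) :
    T.dist (g • a) (g • b) = T.dist a b := by
  refine le_antisymm (dist_smul_le hT hadj g a b) ?_
  have h1 := dist_smul_le hT hadj g⁻¹ (g • a) (g • b)
  rwa [inv_smul_smul, inv_smul_smul] at h1

/-- the oriented edges pointing to `v` -/
def half (v : V) : Set (darts T hadj) := {e | T.dist v e.1.2 < T.dist v e.1.1}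

lemma smul_half (hT : T.IsTree) (g : G) (v : V) : g • half hadj v = half hadj (g • v) := by
  ext e
  rw [Set.mem_smul_set_iff_inv_smul_mem]
  have h1 : ∀ x : V, T.dist v (g⁻¹ • x) = T.dist (g • v) x := by
    intro x
    rw [← dist_smul hT hadj g, smul_inv_smul]
  change T.dist v (g⁻¹ • e.1.2) < T.dist v (g⁻¹ • e.1.1) ↔
    T.dist (g • v) e.1.2 < T.dist (g • v) e.1.1
  rw [h1, h1]

lemma fin_adj (hT : T.IsTree) {v w : V} (h : T.Adj v w) :
    (symmDiff (half hadj v) (half hadj w)).Finite := by
  have h1 : (Subtype.val ⁻¹' ({(w, v), (v, w)} : Set (V × V)) : Set (darts T hadj)).Finite :=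
    Set.Finite.preimage Subtype.val_injective.injOn (Set.toFinite _)
  refine h1.subset ?_
  intro e he
  rw [Set.mem_symmDiff] at he
  have hxy : T.Adj e.1.1 e.1.2 := e.2
  rcases he with ⟨a, b⟩ | ⟨a, b⟩
  · obtain ⟨c, d⟩ := sep hT h hxy a b
    left
    exact Prod.ext c d
  · obtain ⟨c, d⟩ := sep hT h.symm hxy a b
    right
    exact Prod.ext c d

lemma fin_all (hT : T.IsTree) (v w : V) : (symmDiff (half hadj v) (half hadj w)).Finite := by
  obtain ⟨p⟩ := hT.connected v w
  induction p with
  | nil => rw [symmDiff_self]; exact Set.finite_empty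
  | cons h p ih =>
    refine ((fin_adj hadj hT h).union ih).subset ?_
    exact symmDiff_triangle _ _ _

lemma low (hT : T.IsTree) (v w : V) :
    T.dist v w ≤ (symmDiff (half hadj v) (half hadj w)).ncard := by
  obtain ⟨p, hp⟩ := hT.connected.exists_walk_length_eq_dist v w
  have h1 : ∀ i ≤ T.dist v w, T.dist v (p.getVert i) = i ∧
      T.dist w (p.getVert i) = T.dist v w - i := by
    intro i hi
    have a1 := SimpleGraph.dist_le (p.take i)
    have a2 := SimpleGraph.dist_le (p.drop i)
    rw [SimpleGraph.Walk.take_length, hp] at a1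
    rw [SimpleGraph.Walk.drop_length, hp] at a2
    have a3 : T.dist v w ≤ T.dist v (p.getVert i) + T.dist (p.getVert i) w :=
      hT.connected.dist_triangle
    rw [SimpleGraph.dist_comm (u := w)]
    have a4 : i ⊓ T.dist v w = i := min_eq_left hi
    rw [a4] at a1
    omega
  let f : Fin (T.dist v w) → darts T hadj := fun i =>
    ⟨(p.getVert (i + 1), p.getVert i), (p.adj_getVert_succ (by rw [hp]; exact i.2)).symm⟩
  have hf : Function.Injective f := by
    intro i j hij
    have h2 : p.getVert (i : ℕ) = p.getVert (j : ℕ) :=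
      congrArg (fun e : darts T hadj => e.1.2) hij
    have h3 := (h1 i i.2.le).1
    have h4 := (h1 j j.2.le).1
    rw [h2, h4] at h3
    exact (Fin.ext h3).symm
  have h5 : Set.range f ⊆ symmDiff (half hadj v) (half hadj w) := by
    rintro _ ⟨i, rfl⟩
    rw [Set.mem_symmDiff]
    left
    have b1 := h1 i i.2.le
    have b2 := h1 (i + 1) i.2
    have b3 := i.2
    refine ⟨?_, ?_⟩
    · change T.dist v (p.getVert i) < T.dist v (p.getVert (i + 1))
      omega
    · change ¬ T.dist w (p.getVert i) < T.dist w (p.getVert (i + 1))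
      omega
  have h6 := Set.ncard_le_ncard h5 (fin_all hadj hT v w)
  rw [← Nat.card_coe_set_eq, Nat.card_range_of_injective hf, Nat.card_fin] at h6
  exact h6

theorem trees (X : FinRes G) (hT : T.IsTree)
    (hadj : ∀ (g : G) a b, T.Adj a b → T.Adj (g • a) (g • b))
    (ham : ∀ a b, T.Adj a b → IsAmenable (MulAction.stabilizer G ((a, b) : V × V)))
    (v : V) (hu : ∀ N : ℕ, ∃ g : G, N < T.dist v (g • v)) :
    ∃ i ≤ 1, Nontrivial (X.homology (toRed G) i) := by
  refine walls X (E := darts T hadj) ?_ (half hadj v) ?_ ?_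
  · intro e
    rw [SubMulAction.stabilizer_of_subMul]
    exact ham _ _ e.2
  · intro g
    rw [smul_half hadj hT]
    exact fin_all hadj hT _ _
  · intro N
    obtain ⟨g, hg⟩ := hu N
    refine ⟨g, ?_⟩
    rw [smul_half hadj hT, symmDiff_comm]
    exact hg.trans_le (low hadj hT _ _)

lemma far (hT : T.IsTree) (q y : V) : ∀ (n : ℕ) (z x : V), T.Adj x z → T.dist q x < T.dist q z →
    T.dist y z < T.dist y x → T.dist y z = n → T.dist q z + n ≤ T.dist q y := by
  intro n
  induction n with
  | zero =>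
    intro z x _ _ _ h0
    have h1 := (hT.connected.dist_eq_zero_iff).1 h0
    subst h1
    omega
  | succ n ih =>
    intro z x hxz hq hy hn
    have hzy : z ≠ y := by
      rintro rfl
      rw [SimpleGraph.dist_self] at hn
      omega
    obtain ⟨z', hz', hd'⟩ := exists_parent hT hzy
    have hne := hT.dist_ne_of_adj q hz'
    have h1 : ¬ T.dist q z' < T.dist q z := by
      intro h2
      have h3 : z' = x := parent_unique hT hz' hxz.symm h2 hq
      subst h3
      omega
    have h4 : T.dist y z ≤ T.dist y z' + T.dist z' z := hT.connected.dist_triangle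
    rw [SimpleGraph.dist_eq_one_iff_adj.2 hz'.symm] at h4
    have h5 := ih z' z hz' (by omega) hd' (by omega)
    omega

lemma conv (hT : T.IsTree) {x y z : V} (q : V) (hxz : T.Adj x z) (hy : T.dist y z < T.dist y x)
    (hzy : z ≠ y) : T.dist q z < T.dist q x ∨ T.dist q z < T.dist q y := by
  by_cases h : T.dist q z < T.dist q x
  · exact Or.inl h
  · right
    have hne := hT.dist_ne_of_adj q hxz
    have h1 := far hT q y (T.dist y z) z x hxz (by omega) hy rfl
    have h2 : T.dist y z ≠ 0 := fun h0 => hzy ((hT.connected.dist_eq_zero_iff).1 h0).symm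
    omega

theorem unbounded (hT : T.IsTree)
    (hadj : ∀ (g : G) a b, T.Adj a b → T.Adj (g • a) (g • b))
    (hinv : ∀ (g : G) a b, T.Adj a b → ¬ (g • a = b ∧ g • b = a))
    (hfix : ∀ a : V, ∃ g : G, g • a ≠ a) (v : V) (N : ℕ) :
    ∃ g : G, N < T.dist v (g • v) := by
  by_contra hcon
  push Not at hcon
  have hP : ∃ r : ℕ, ∃ x : V, ∀ g : G, T.dist (g • v) x ≤ r :=
    ⟨N, v, fun g => by rw [SimpleGraph.dist_comm]; exact hcon g⟩
  classical
  set r := Nat.find hP with hr
  obtain ⟨x, hx⟩ := Nat.find_spec hP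
  have hmin : ∀ x y : V, (∀ g : G, T.dist (g • v) x ≤ r) → (∀ g : G, T.dist (g • v) y ≤ r) →
      T.dist x y ≤ 1 := by
    intro x y hx hy
    by_contra h2
    have hxy : x ≠ y := by
      rintro rfl
      rw [SimpleGraph.dist_self] at h2
      omega
    obtain ⟨z, hz, hd⟩ := exists_parent hT hxy
    have hzy : z ≠ y := by
      rintro rfl
      rw [SimpleGraph.dist_eq_one_iff_adj.2 hz] at h2
      exact h2 le_rfl
    have h3 : ∀ g : G, T.dist (g • v) z < r := by
      intro g
      rcases conv hT (g • v) hz hd hzy with h4 | h4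
      · exact h4.trans_le (hx g)
      · exact h4.trans_le (hy g)
    have h4 := h3 1
    exact Nat.find_min hP (m := r - 1) (by omega) ⟨z, fun g => by have := h3 g; omega⟩
  have hinvt : ∀ (x : V) (g : G), (∀ g : G, T.dist (g • v) x ≤ r) →
      ∀ g' : G, T.dist (g' • v) (g • x) ≤ r := by
    intro x g hx g'
    have h1 := hx (g⁻¹ * g')
    rw [← dist_smul hT hadj g, ← mul_smul, mul_inv_cancel_left] at h1
    exact h1
  obtain ⟨g, hg⟩ := hfix x
  have hy := hinvt x g hx
  have hz := hinvt _ g hy
  have h1 := hmin _ _ hx hy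
  have h2 := hmin _ _ hx hz
  have h3 := hmin _ _ hy hz
  have e1 : T.dist x (g • x) = 1 := by
    have : T.dist x (g • x) ≠ 0 := fun h0 => hg ((hT.connected.dist_eq_zero_iff).1 h0).symm
    omega
  have e2 : T.dist x (g • g • x) = 1 := by
    have : T.dist x (g • g • x) ≠ 0 := fun h0 =>
      hinv g x (g • x) (SimpleGraph.dist_eq_one_iff_adj.1 e1)
        ⟨rfl, ((hT.connected.dist_eq_zero_iff).1 h0).symm⟩
    omega
  have e3 : T.Adj (g • x) (g • g • x) := hadj g _ _ (SimpleGraph.dist_eq_one_iff_adj.1 e1)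
  exact hT.dist_ne_of_adj x e3 (e1.trans e2.symm)

theorem trees' (X : FinRes G) (hT : T.IsTree)
    (hadj : ∀ (g : G) a b, T.Adj a b → T.Adj (g • a) (g • b))
    (hinv : ∀ (g : G) a b, T.Adj a b → ¬ (g • a = b ∧ g • b = a))
    (hfix : ∀ a : V, ∃ g : G, g • a ≠ a)
    (ham : ∀ a b, T.Adj a b → IsAmenable (MulAction.stabilizer G ((a, b) : V × V))) :
    ∃ i ≤ 1, Nontrivial (X.homology (toRed G) i) := by
  obtain ⟨v⟩ := hT.connected.nonempty
  exact trees X hT hadj ham v (unbounded hT hadj hinv hfix v)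

end Pool.Agent.Q169.WL
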