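import Pool.Agent.Q169.WL.Ext

/-!
Almost invariant subsets of `G`-sets with amenable stabilizers.
-/

set_option autoImplicit false
set_option linter.unusedSectionVars false

open scoped Matrix ENNReal Pointwise symmDiff
open Filter Topology

namespace Pool.Agent.Q169.WL

open Pool.Agent.H496R3.ZS (Ell permRep IsAmenable integ)
open Pool.Agent.H919R4.ZS (RedC toRed FinRes)
open Pool.Agent.H919R4.AS (LL LL_single act triv)

noncomputable section

variable {G : Type} [Group G] {E : Type} [MulAction G E]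

open Classical in
/-- the indicator function -/
def ind (A : Set E) (e : E) : ℂ := if e ∈ A then 1 else 0

/-- difference of the indicator functions of `gA` and `A` -/
def dif (A : Set E) (g : G) (e : E) : ℂ := ind A (g⁻¹ • e) - ind A e

lemma mem_symm (A : Set E) (g : G) (e : E) :
    e ∈ symmDiff (g • A) A ↔ ¬ (g⁻¹ • e ∈ A ↔ e ∈ A) := by
  rw [Set.mem_symmDiff, Set.mem_smul_set_iff_inv_smul_mem]
  tauto

lemma dif_zero (A : Set E) (g : G) (e : E) (h : e ∉ symmDiff (g • A) A) : dif A g e = 0 := by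
  rw [mem_symm, not_not] at h
  unfold dif ind
  by_cases he : e ∈ A
  · rw [if_pos he, if_pos (h.2 he), sub_self]
  · rw [if_neg he, if_neg (fun h' => he (h.1 h')), sub_self]

lemma dif_norm (A : Set E) (g : G) (e : E) (h : e ∈ symmDiff (g • A) A) : ‖dif A g e‖ = 1 := by
  rw [mem_symm] at h
  unfold dif ind
  by_cases he : e ∈ A
  · have h1 : ¬ g⁻¹ • e ∈ A := fun h' => h ⟨fun _ => he, fun _ => h'⟩
    rw [if_pos he, if_neg h1, zero_sub, norm_neg, norm_one]
  · have h1 : g⁻¹ • e ∈ A := by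
      by_contra h'
      exact h ⟨fun h2 => absurd h2 h', fun h2 => absurd h2 he⟩
    rw [if_neg he, if_pos h1, sub_zero, norm_one]

/-- the cocycle -/
def coc (A : Set E) (hA : ∀ g : G, (symmDiff (g • A) A).Finite) (g : G) : Ell E :=
  ⟨dif A g, by
    refine memℓp_gen ?_
    refine summable_of_ne_finset_zero (s := (hA g).toFinset) ?_
    intro e he
    rw [Set.Finite.mem_toFinset] at he
    rw [dif_zero A g e he, norm_zero]
    exact Real.zero_rpow (by norm_num)⟩

lemma coc_apply (A : Set E) (hA : ∀ g : G, (symmDiff (g • A) A).Finite) (g : G) (e : E) :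
    coc A hA g e = dif A g e := rfl

theorem walls (X : FinRes G) (hE : ∀ e : E, IsAmenable (MulAction.stabilizer G e)) (A : Set E)
    (hA : ∀ g : G, (symmDiff (g • A) A).Finite)
    (hu : ∀ N : ℕ, ∃ g : G, N < (symmDiff (g • A) A).ncard) :
    ∃ i ≤ 1, Nontrivial (X.homology (toRed G) i) := by
  by_contra hcon
  push Not at hcon
  have h0 : Subsingleton (X.homology (toRed G) 0) := hcon 0 (by norm_num)
  have h1 : Subsingleton (X.homology (toRed G) 1) := hcon 1 le_rfl
  have hL : ∀ (g : G) (f : Ell E), LL (triv G E) (MonoidAlgebra.single g 1) f = permRep G E g f := by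
    intro g f
    rw [LL_single, one_smul, triv_rep]
  obtain ⟨v, hv⟩ := deriv_inner' X (triv G E) (fun v hv => exact1 X hE h0 h1 v hv) (coc A hA) (by
    intro g k
    rw [hL]
    ext e
    rw [lp.coeFn_add, Pi.add_apply]
    change dif A (g * k) e = dif A k (g⁻¹ • e) + dif A g e
    unfold dif
    rw [mul_inv_rev, mul_smul]
    ring)
  obtain ⟨N, hN⟩ := exists_nat_gt ((2 * ‖v‖) ^ 2)
  obtain ⟨g, hg⟩ := hu N
  have h3 : ‖coc A hA g‖ ≤ 2 * ‖v‖ := by
    rw [hv g, hL]
    refine (norm_sub_le _ _).trans ?_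
    have h4 : ‖permRep G E g v‖ = ‖v‖ :=
      (Pool.Agent.H496R3.ZS.permIso (MulAction.toPerm (g⁻¹ : G) : E ≃ E)).norm_map v
    rw [h4]
    linarith
  have h5 := lp.sum_rpow_le_norm_rpow (p := 2) (by norm_num) (coc A hA g) (hA g).toFinset
  have h6 : ∑ i ∈ (hA g).toFinset, ‖coc A hA g i‖ ^ (2 : ℝ≥0∞).toReal =
      ((symmDiff (g • A) A).ncard : ℝ) := by
    rw [Finset.sum_congr rfl (fun e he => by
      rw [coc_apply, dif_norm A g e ((Set.Finite.mem_toFinset _).1 he), Real.one_rpow]),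
      Finset.sum_const, nsmul_eq_mul, mul_one, Set.ncard_eq_toFinset_card _ (hA g)]
  rw [h6] at h5
  have h7 : ‖coc A hA g‖ ^ (2 : ℝ≥0∞).toReal = ‖coc A hA g‖ ^ 2 := by
    rw [← Real.rpow_natCast]
    norm_num
  rw [h7] at h5
  have h8 : ‖coc A hA g‖ ^ 2 ≤ (2 * ‖v‖) ^ 2 := pow_le_pow_left₀ (norm_nonneg _) h3 2
  have h9 : (N : ℝ) < ((symmDiff (g • A) A).ncard : ℝ) := by exact_mod_cast hg
  linarith

end

end Pool.Agent.Q169.WL
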