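import Pool.Agent.Q169.WL.Tree

/-!
Almost invariant subsets of `G`-sets with amenable stabilizers: the sharp form.
-/

set_option autoImplicit false
set_option linter.unusedSectionVars false

open scoped Matrix ENNReal Pointwise symmDiff
open Filter Topology

namespace Pool.Agent.Q169.WL

open Pool.Agent.H496R3.ZS (Ell permRep IsAmenable integ)
open Pool.Agent.H919R4.ZS (RedC toRed FinRes)
open Pool.Agent.H919R4.AS (LL LL_single act triv)

noncomputable section

variable {G : Type} [Group G] {E : Type} [MulAction G E]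

lemma lp_large_finite (v : Ell E) : {e : E | 1 / 2 ≤ ‖v e‖}.Finite := by
  have h1 : Summable fun e => ‖v e‖ ^ (2 : ℝ≥0∞).toReal :=
    (lp.memℓp v).summable (by norm_num)
  have h2 := h1.tendsto_cofinite_zero
  have h3 : ∀ᶠ e in cofinite, ‖v e‖ ^ (2 : ℝ≥0∞).toReal < 1 / 4 :=
    h2.eventually (gt_mem_nhds (by norm_num))
  rw [eventually_cofinite] at h3
  refine h3.subset ?_
  intro e he
  have he' : (1 : ℝ) / 2 ≤ ‖v e‖ := he
  change ¬ ‖v e‖ ^ (2 : ℝ≥0∞).toReal < 1 / 4
  have h4 : ‖v e‖ ^ (2 : ℝ≥0∞).toReal = ‖v e‖ ^ 2 := by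
    rw [← Real.rpow_natCast]
    norm_num
  rw [h4, not_lt]
  nlinarith

theorem walls2 (X : FinRes G) (hE : ∀ e : E, IsAmenable (MulAction.stabilizer G e)) (A : Set E)
    (hA : ∀ g : G, (symmDiff (g • A) A).Finite)
    (hB : ∀ B : Set E, (∀ g : G, g • B = B) → (symmDiff A B).Infinite) :
    ∃ i ≤ 1, Nontrivial (X.homology (toRed G) i) := by
  by_contra hcon
  push Not at hcon
  have h0 : Subsingleton (X.homology (toRed G) 0) := hcon 0 (by norm_num)
  have h1 : Subsingleton (X.homology (toRed G) 1) := hcon 1 le_rfl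
  have hL : ∀ (g : G) (f : Ell E), LL (triv G E) (MonoidAlgebra.single g 1) f = permRep G E g f := by
    intro g f
    rw [LL_single, one_smul, triv_rep]
  obtain ⟨v, hv⟩ := deriv_inner' X (triv G E) (fun v hv => exact1 X hE h0 h1 v hv) (coc A hA) (by
    intro g k
    rw [hL]
    ext e
    rw [lp.coeFn_add, Pi.add_apply]
    change dif A (g * k) e = dif A k (g⁻¹ • e) + dif A g e
    unfold dif
    rw [mul_inv_rev, mul_smul]
    ring)
  have hf : ∀ (g : G) (e : E), ind A (g⁻¹ • e) - v (g⁻¹ • e) = ind A e - v e := by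
    intro g e
    have h2 : coc A hA g e = (permRep G E g v - v) e := by rw [hv g, hL]
    rw [lp.coeFn_sub, Pi.sub_apply, coc_apply] at h2
    have h3 : permRep G E g v e = v (g⁻¹ • e) := rfl
    rw [h3] at h2
    unfold dif at h2
    linear_combination h2
  have hf' : ∀ (g : G) (e : E), ind A (g • e) - v (g • e) = ind A e - v e := by
    intro g e
    have := hf g⁻¹ e
    rwa [inv_inv] at this
  refine hB {e | 1 / 2 < ‖ind A e - v e‖} ?_ ?_
  · intro g
    ext e
    rw [Set.mem_smul_set_iff_inv_smul_mem]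
    change 1 / 2 < ‖ind A (g⁻¹ • e) - v (g⁻¹ • e)‖ ↔ _
    rw [hf]
    rfl
  · refine (lp_large_finite v).subset ?_
    intro e he
    rw [Set.mem_symmDiff] at he
    change 1 / 2 ≤ ‖v e‖
    rcases he with ⟨ha, hb⟩ | ⟨hb, ha⟩
    · have hb' : ¬ 1 / 2 < ‖ind A e - v e‖ := hb
      unfold ind at hb'
      rw [if_pos ha, not_lt] at hb'
      have h5 : ‖(1 : ℂ)‖ ≤ ‖(1 : ℂ) - v e‖ + ‖v e‖ := by
        have := norm_add_le ((1 : ℂ) - v e) (v e)
        rwa [sub_add_cancel] at this
      rw [norm_one] at h5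
      linarith
    · have hb' : 1 / 2 < ‖ind A e - v e‖ := hb
      unfold ind at hb'
      rw [if_neg ha, zero_sub, norm_neg] at hb'
      exact hb'.le

end

end Pool.Agent.Q169.WL
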